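import Pool.Agent.Helper736_QR.Graph

set_option autoImplicit false

/-!
# Graphs with linearly many edges without quasiregular subgraphs

A subgraph `H` (with at least one vertex) is `(k, C)`-quasiregular if all its degrees are strictly
between `k` and `C k`.  Sauer's question asks for a constant `C` such that for every `k ≥ 1` a large
enough average degree forces a `(k, C)`-quasiregular subgraph.  We show that the answer is negative,
in the strongest possible way: for every `k ≥ 2`, every `C` and every `F` there is a graph with `n`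
vertices and at least `F n` edges no subgraph of which is `(k, C)`-quasiregular.

Proof. The graph is bipartite, one side `B` has `q^(16^F)` vertices and the other side consists of
`F` levels, the `i`-th with `q^(16^F - 16^i)` vertices; every vertex of `B` is joined to one random
vertex of every level.  If `H` has all its degrees in `[3, D]` and `m` vertices in `B`, then the
levels with fewer than `m / q` vertices are used by few edges, and at most one level has a size
between `m / q` and the power `15/16` of what is needed; so more than `15 m / 8` edges of `H` go to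
levels which are much larger than `m`, where a set of `s` vertices with at most `s / 3` neighbours
is too unlikely; the union bound over all choices converges.
-/

namespace Pool.Agent.Results.MP_78fef3_co.NoQuasiregular

/-- The subgraph `H` of `G` is `(k, C)`-quasiregular: it has a vertex, and for every vertex of `H`
its degree in `H` is strictly between `k` and `C k`. -/
def Quasiregular {n : ℕ} {G : SimpleGraph (Fin n)} (k : ℕ) (C : ℝ) (H : G.Subgraph) : Prop :=
  H.verts.Nonempty ∧
    ∀ v ∈ H.verts, (k : ℝ) < (H.neighborSet v).ncard ∧ ((H.neighborSet v).ncard : ℝ) < C * k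

/-- Sauer's assertion: there is a constant `C > 1` such that for every `k ≥ 1` there is a number `F`
such that every graph with `n ≥ 1` vertices and at least `F n` edges has a `(k, C)`-quasiregular
subgraph. -/
def Sauer : Prop :=
  ∃ C : ℝ, 1 < C ∧ ∀ k : ℕ, 1 ≤ k → ∃ F : ℝ, ∀ n : ℕ, 1 ≤ n → ∀ G : SimpleGraph (Fin n),
    F * n ≤ G.edgeSet.ncard → ∃ H : G.Subgraph, Quasiregular k C H

/-- Sauer's assertion is false; moreover, for every `k ≥ 2` and every `C` there are graphs with
arbitrarily large average degree and without `(k, C)`-quasiregular subgraphs. -/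
theorem result : ¬ Sauer ∧
    ∀ (k : ℕ) (C F : ℝ), 2 ≤ k → ∃ n : ℕ, 1 ≤ n ∧ ∃ G : SimpleGraph (Fin n),
      F * n ≤ G.edgeSet.ncard ∧ ∀ H : G.Subgraph, ¬ Quasiregular k C H := by
  have key : ∀ (k : ℕ) (C F : ℝ), 2 ≤ k → ∃ n : ℕ, 1 ≤ n ∧ ∃ G : SimpleGraph (Fin n),
      F * n ≤ G.edgeSet.ncard ∧ ∀ H : G.Subgraph, ¬ Quasiregular k C H := by
    intro k C F hk
    obtain ⟨n, G, hn, hE, hG⟩ :=
      Pool.Agent.Helper736_QR.exists_graph (⌈2 * F⌉₊ + 1) ⌈C * k⌉₊ (by omega)
    refine ⟨n, hn, G, ?_, ?_⟩
    · have h1 : (((⌈2 * F⌉₊ + 1 : ℕ) : ℝ)) * n ≤ 2 * (G.edgeSet.ncard : ℝ) := by exact_mod_cast hE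
      have h2 : 2 * F ≤ ((⌈2 * F⌉₊ + 1 : ℕ) : ℝ) := by
        push_cast
        linarith [Nat.le_ceil (2 * F)]
      have h3 : (0 : ℝ) ≤ n := Nat.cast_nonneg n
      nlinarith
    · rintro H ⟨hne, hdeg⟩
      apply hG H hne
      intro v hv
      obtain ⟨h1, h2⟩ := hdeg v hv
      have h1' : k < (H.neighborSet v).ncard := by exact_mod_cast h1
      refine ⟨by omega, ?_⟩
      have h3 : ((H.neighborSet v).ncard : ℝ) ≤ (⌈C * k⌉₊ : ℝ) := h2.le.trans (Nat.le_ceil _)
      exact_mod_cast h3
  refine ⟨?_, key⟩
  rintro ⟨C, -, h⟩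
  obtain ⟨F, hF⟩ := h 2 (by norm_num)
  obtain ⟨n, hn, G, hE, hG⟩ := key 2 C F le_rfl
  obtain ⟨H, hH⟩ := hF n hn G hE
  exact hG H hH

end Pool.Agent.Results.MP_78fef3_co.NoQuasiregular
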